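import Mathlib

set_option autoImplicit false

/-!
The weights of the cyclic triangulation of the `m`-torus with `2 ^ (m+1) - 1` vertices.
-/

namespace Pool.Agent.Y175.KL

open Finset

/-- the weights `c m j i`, `i, j ≤ m` -/
def c (m j i : ℕ) : ℕ := if i < j then 2 ^ (j - 1 - i) else 2 ^ (m + j - i)

/-- the linear form with the weights `c m j` -/
def T {R : Type*} [CommRing R] (m j : ℕ) (n : ℕ → R) : R :=
  ∑ i ∈ range (m + 1), (c m j i : R) * n i

/-- the linear form `T m j n - (2 ^ (m+1) - 1) n j` -/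
def G {R : Type*} [CommRing R] (m j : ℕ) (n : ℕ → R) : R := T m j n - (2 ^ (m + 1) - 1) * n j

theorem c_succ {R : Type*} [CommRing R] {m j i : ℕ} (hi : i ≤ m) (hj : j ≤ m) :
    (c m (j + 1) i : R) = 2 * (c m j i : R) - if i = j then (2 ^ (m + 1) - 1 : R) else 0 := by
  unfold c
  rcases lt_trichotomy i j with h | h | h
  · rw [if_pos (by omega), if_pos h, if_neg (by omega)]
    have : j + 1 - 1 - i = (j - 1 - i) + 1 := by omega
    rw [this]
    push_cast
    ring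
  · subst h
    rw [if_pos (by omega), if_neg (by omega), if_pos rfl]
    have h1 : i + 1 - 1 - i = 0 := by omega
    have h2 : m + i - i = m := by omega
    rw [h1, h2]
    push_cast
    ring
  · rw [if_neg (by omega), if_neg (by omega), if_neg (by omega)]
    have : m + (j + 1) - i = (m + j - i) + 1 := by omega
    rw [this]
    push_cast
    ring

theorem T_succ {R : Type*} [CommRing R] {m j : ℕ} (hj : j ≤ m) (n : ℕ → R) :
    T m (j + 1) n = 2 * T m j n - (2 ^ (m + 1) - 1) * n j := by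
  unfold T
  have h1 : ∑ i ∈ range (m + 1), (c m (j + 1) i : R) * n i =
      ∑ i ∈ range (m + 1), (2 * ((c m j i : R) * n i) -
        if i = j then (2 ^ (m + 1) - 1 : R) * n j else 0) := by
    refine sum_congr rfl fun i hi => ?_
    rw [c_succ (by have := mem_range.1 hi; omega) hj]
    split_ifs with h
    · subst h
      ring
    · ring
  rw [h1, sum_sub_distrib, ← mul_sum, sum_ite_eq', if_pos (mem_range.2 (by omega))]

theorem T_zero {R : Type*} [CommRing R] (m : ℕ) (s : ℕ → R) (M : ℕ) (hM : M ≤ m + 1) :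
    ∑ i ∈ range M, (2 : R) ^ (m - i) * (2 * s i - s (i + 1)) =
      2 ^ (m + 1) * s 0 - 2 ^ (m + 1 - M) * s M := by
  induction M with
  | zero => simp
  | succ M ih =>
    rw [sum_range_succ, ih (by omega)]
    have h1 : m + 1 - M = (m - M) + 1 := by omega
    have h2 : m + 1 - (M + 1) = m - M := by omega
    rw [h1, h2]
    ring

theorem T_at_zero {R : Type*} [CommRing R] (m : ℕ) (n : ℕ → R) :
    T m 0 n = ∑ i ∈ range (m + 1), (2 : R) ^ (m - i) * n i := by
  unfold T c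
  refine sum_congr rfl fun i _ => ?_
  rw [if_neg (by omega)]
  push_cast
  rfl

theorem T_line {R : Type*} [CommRing R] {m : ℕ} (s : ℕ → R) (h0 : s 0 = 0) (hm : s (m + 1) = 0)
    {j : ℕ} (hj : j ≤ m + 1) :
    T m j (fun i => 2 * s i - s (i + 1)) = (2 ^ (m + 1) - 1) * s j := by
  induction j with
  | zero =>
    rw [T_at_zero, T_zero m s (m + 1) le_rfl, h0, hm]
    ring
  | succ j ih =>
    rw [T_succ (by omega), ih (by omega)]
    ring

theorem T_one {R : Type*} [CommRing R] {m : ℕ} {j : ℕ} (hj : j ≤ m + 1) :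
    T m j (fun _ => (1 : R)) = 2 ^ (m + 1) - 1 := by
  induction j with
  | zero =>
    rw [T_at_zero]
    have := T_zero (R := R) m (fun _ => 1) (m + 1) le_rfl
    simp only [Nat.sub_self, pow_zero, mul_one] at this
    rw [← this]
    refine sum_congr rfl fun i _ => ?_
    ring
  | succ j ih =>
    rw [T_succ (by omega), ih (by omega)]
    ring

theorem T_add {R : Type*} [CommRing R] (m j : ℕ) (a b : ℕ → R) :
    T m j (fun i => a i + b i) = T m j a + T m j b := by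
  unfold T
  rw [← sum_add_distrib]
  exact sum_congr rfl fun i _ => by ring

theorem T_smul {R : Type*} [CommRing R] (m j : ℕ) (r : R) (a : ℕ → R) :
    T m j (fun i => r * a i) = r * T m j a := by
  unfold T
  rw [mul_sum]
  exact sum_congr rfl fun i _ => by ring

theorem G_add {R : Type*} [CommRing R] (m j : ℕ) (a b : ℕ → R) :
    G m j (fun i => a i + b i) = G m j a + G m j b := by
  unfold G
  rw [T_add]
  ring

theorem G_smul {R : Type*} [CommRing R] (m j : ℕ) (r : R) (a : ℕ → R) :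
    G m j (fun i => r * a i) = r * G m j a := by
  unfold G
  rw [T_smul]
  ring

theorem G_const {R : Type*} [CommRing R] {m j : ℕ} (hj : j ≤ m) (r : R) :
    G m j (fun _ => r) = 0 := by
  have h1 := G_smul m j r (fun _ => (1 : R))
  simp only [mul_one] at h1
  rw [h1]
  unfold G
  rw [T_one (by omega)]
  ring

theorem G_line {R : Type*} [CommRing R] {m : ℕ} (s : ℕ → R) (h0 : s 0 = 0) (hm : s (m + 1) = 0)
    {j : ℕ} (hj : j ≤ m) :
    G m j (fun i => 2 * s i - s (i + 1)) = (2 ^ (m + 1) - 1) * (s (j + 1) - s j) := by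
  unfold G
  rw [T_line s h0 hm (by omega)]
  ring

theorem G_cast (m j : ℕ) (n : ℕ → ℤ) : G m j (fun i => (n i : ℝ)) = ((G m j n : ℤ) : ℝ) := by
  unfold G T
  push_cast
  rfl

/-- the form is small on the cube -/
theorem abs_G_le {m j : ℕ} (hj : j ≤ m) (r : ℕ → ℝ) (h0 : ∀ i ≤ m, 0 ≤ r i)
    (h1 : ∀ i ≤ m, r i ≤ 1) : |G m j r| ≤ 2 ^ m - 1 := by
  have hc : (c m j j : ℝ) = 2 ^ m := by
    unfold c
    rw [if_neg (by omega)]
    have h2 : m + j - j = m := by omega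
    rw [h2]
    push_cast
    rfl
  have key : ∀ r : ℕ → ℝ, (∀ i ≤ m, 0 ≤ r i) → 2 ^ m * r j ≤ T m j r := by
    intro r h0
    unfold T
    rw [← hc]
    refine single_le_sum (f := fun i => (c m j i : ℝ) * r i) (fun i hi => ?_)
      (mem_range.2 (by omega))
    exact mul_nonneg (Nat.cast_nonneg _) (h0 i (by have := mem_range.1 hi; omega))
  have h2 := key r h0
  have h3 := key (fun i => 1 - r i) fun i hi => sub_nonneg.2 (h1 i hi)
  have h4 : T m j (fun i => 1 - r i) = (2 ^ (m + 1) - 1) - T m j r := by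
    have h5 : (fun i => 1 - r i) = fun i => (fun _ => (1 : ℝ)) i + (-1) * r i := by
      funext i; ring
    rw [h5, T_add, T_one (by omega), T_smul]
    ring
  rw [h4] at h3
  have h6 := h0 j hj
  have h7 := h1 j hj
  have h8 : (1 : ℝ) ≤ 2 ^ m := one_le_pow₀ (by norm_num)
  have h9 : (2 : ℝ) ^ (m + 1) = 2 * 2 ^ m := by ring
  unfold G
  rw [h9] at h3 ⊢
  rw [abs_le]
  constructor
  · nlinarith
  · nlinarith

/-- colours -/
theorem G_color {m j : ℕ} (hj : j ≤ m) (n : ℕ → ℤ) (i : ℤ)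
    (hi : (2 ^ (m + 1) - 1 : ℤ) ∣ T m 0 n - i) :
    (2 ^ (m + 1) - 1 : ℤ) ∣ G m j n - 2 ^ j * i := by
  have h1 : ∀ j ≤ m, (2 ^ (m + 1) - 1 : ℤ) ∣ T m j n - 2 ^ j * i := by
    intro j
    induction j with
    | zero => intro _; simpa using hi
    | succ j ih =>
      intro hj
      rw [T_succ (by omega)]
      have h2 := ih (by omega)
      have h3 : 2 * T m j n - (2 ^ (m + 1) - 1) * n j - 2 ^ (j + 1) * i =
          2 * (T m j n - 2 ^ j * i) - (2 ^ (m + 1) - 1) * n j := by ring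
      rw [h3]
      exact dvd_sub (h2.mul_left 2) (dvd_mul_right _ _)
  have h4 : G m j n - 2 ^ j * i = (T m j n - 2 ^ j * i) - (2 ^ (m + 1) - 1) * n j := by
    unfold G
    ring
  rw [h4]
  exact dvd_sub (h1 j hj) (dvd_mul_right _ _)

/-- the integer vector `n` is the floor of `t + θ`, away from the integers -/
def Wit (m : ℕ) (t : ℕ → ℝ) (i : ℤ) (θ : ℝ) (n : ℕ → ℤ) : Prop :=
  0 ≤ θ ∧ θ < 1 ∧ (2 ^ (m + 1) - 1 : ℤ) ∣ T m 0 n - i ∧
    ∀ k ≤ m, (n k : ℝ) < t k + θ ∧ t k + θ < n k + 1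

/-- the deviation -/
noncomputable def dev (m j : ℕ) (t : ℕ → ℝ) (θ : ℝ) (n : ℕ → ℤ) : ℝ :=
  G m j (fun k => t k + θ - n k)

theorem abs_dev_le {m j : ℕ} (hj : j ≤ m) {t : ℕ → ℝ} {i : ℤ} {θ : ℝ} {n : ℕ → ℤ}
    (h : Wit m t i θ n) : |dev m j t θ n| ≤ 2 ^ m - 1 :=
  abs_G_le hj _ (fun k hk => by linarith [(h.2.2.2 k hk).1])
    (fun k hk => by linarith [(h.2.2.2 k hk).2])

theorem abs_dev_sub_le {m j : ℕ} (hj : j ≤ m) {t : ℕ → ℝ} {i i' : ℤ} {θ θ' : ℝ} {n n' : ℕ → ℤ}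
    (h : Wit m t i θ n) (h' : Wit m t i' θ' n') :
    |dev m j t θ n - dev m j t θ' n'| ≤ 2 ^ m - 1 := by
  wlog hle : θ' ≤ θ generalizing i i' θ θ' n n'
  · rw [abs_sub_comm]
    exact this h' h (le_of_not_ge hle)
  have h1 : dev m j t θ' n' = dev m j t θ n + G m j (fun k => (n k : ℝ) - n' k) := by
    unfold dev
    have h2 : (fun k => t k + θ' - (n' k : ℝ)) = fun k =>
        (fun k => (fun k => t k + θ - (n k : ℝ)) k + (fun k => (n k : ℝ) - n' k) k) k +
          (fun _ => θ' - θ) k := by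
      funext k
      ring
    rw [h2, G_add, G_add, G_const hj]
    ring
  rw [h1, sub_add_cancel_left, abs_neg]
  refine abs_G_le hj _ (fun k hk => ?_) (fun k hk => ?_)
  · have h3 := h.2.2.2 k hk
    have h4 := h'.2.2.2 k hk
    have h5 : (-1 : ℝ) < ((n k - n' k : ℤ) : ℝ) := by push_cast; linarith
    have h6 : (-1 : ℤ) < n k - n' k := by exact_mod_cast h5
    have h7 : (0 : ℤ) ≤ n k - n' k := by omega
    have h8 : (0 : ℝ) ≤ ((n k - n' k : ℤ) : ℝ) := by exact_mod_cast h7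
    push_cast at h8
    exact h8
  · have h3 := h.2.2.2 k hk
    have h4 := h'.2.2.2 k hk
    have h5 : ((n k - n' k : ℤ) : ℝ) < 2 := by
      push_cast
      linarith [h.1, h.2.1, h'.1, h'.2.1]
    have h6 : n k - n' k < (2 : ℤ) := by exact_mod_cast h5
    have h7 : n k - n' k ≤ (1 : ℤ) := by omega
    have h8 : ((n k - n' k : ℤ) : ℝ) ≤ 1 := by exact_mod_cast h7
    push_cast at h8
    exact h8

/-- the position of the vertex -/
theorem position {m j : ℕ} (hj : j ≤ m) {s : ℕ → ℝ} (h0 : s 0 = 0) (hm : s (m + 1) = 0) {i : ℤ}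
    {θ : ℝ} {n : ℕ → ℤ} (h : Wit m (fun k => 2 * s k - s (k + 1)) i θ n) :
    ∃ q : ℤ, 2 ^ j * (i : ℝ) / (2 ^ (m + 1) - 1) = s (j + 1) - s j -
      dev m j (fun k => 2 * s k - s (k + 1)) θ n / (2 ^ (m + 1) - 1) + q := by
  obtain ⟨q, hq⟩ := G_color hj n i h.2.2.1
  have h1 := G_line s h0 hm hj
  have h2 : (fun k => 2 * s k - s (k + 1)) = fun k =>
      (fun k => (fun k => (2 * s k - s (k + 1)) + θ - (n k : ℝ)) k + (fun k => (n k : ℝ)) k) k +
        (fun _ => -θ) k := by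
    funext k
    ring
  have h3 : G m j (fun k => 2 * s k - s (k + 1)) =
      dev m j (fun k => 2 * s k - s (k + 1)) θ n + ((G m j n : ℤ) : ℝ) := by
    conv_lhs => rw [h2]
    rw [G_add, G_add, G_const hj, G_cast]
    unfold dev
    ring
  rw [h1] at h3
  have h4 : ((G m j n : ℤ) : ℝ) = 2 ^ j * (i : ℝ) + (2 ^ (m + 1) - 1) * (q : ℝ) := by
    have h5 : G m j n = 2 ^ j * i + (2 ^ (m + 1) - 1) * q := by linarith
    rw [h5]
    push_cast
    ring
  rw [h4] at h3
  have h8 : (1 : ℝ) ≤ 2 ^ m := one_le_pow₀ (by norm_num)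
  have h9 : (2 : ℝ) ^ (m + 1) = 2 * 2 ^ m := by ring
  have hN : (0 : ℝ) < 2 ^ (m + 1) - 1 := by rw [h9]; linarith
  refine ⟨-q, ?_⟩
  push_cast
  field_simp
  linarith

theorem exists_wit (m : ℕ) (t : ℕ → ℝ) :
    ∃ i : Fin (2 ^ (m + 1) - 1), ∃ (θ : ℝ) (n : ℕ → ℤ), Wit m t (i : ℕ) θ n := by
  classical
  obtain ⟨θ, hθ, hθB⟩ := (Set.Ico_infinite (zero_lt_one (α := ℝ))).exists_notMem_finset
    ((range (m + 1)).image fun k => Int.fract (-t k))
  have hN : 0 < 2 ^ (m + 1) - 1 := by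
    have : 2 ≤ 2 ^ (m + 1) := by
      rw [pow_succ]
      have := Nat.one_le_two_pow (n := m)
      omega
    omega
  have hNZ : ((2 ^ (m + 1) - 1 : ℕ) : ℤ) = 2 ^ (m + 1) - 1 := by
    rw [Nat.cast_sub Nat.one_le_two_pow]
    push_cast
    rfl
  set n : ℕ → ℤ := fun k => ⌊t k + θ⌋ with hn
  have hpos : (0 : ℤ) < ((2 ^ (m + 1) - 1 : ℕ) : ℤ) := by exact_mod_cast hN
  have h1 := Int.emod_nonneg (T m 0 n) hpos.ne'
  have h2 := Int.emod_lt_of_pos (T m 0 n) hpos
  refine ⟨⟨(T m 0 n % ((2 ^ (m + 1) - 1 : ℕ) : ℤ)).toNat, by omega⟩, θ, n, hθ.1, hθ.2, ?_, ?_⟩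
  · have h3 : (((T m 0 n % ((2 ^ (m + 1) - 1 : ℕ) : ℤ)).toNat : ℕ) : ℤ) =
        T m 0 n % ((2 ^ (m + 1) - 1 : ℕ) : ℤ) := Int.toNat_of_nonneg h1
    show (2 ^ (m + 1) - 1 : ℤ) ∣ T m 0 n -
      (((T m 0 n % ((2 ^ (m + 1) - 1 : ℕ) : ℤ)).toNat : ℕ) : ℤ)
    rw [h3, ← hNZ]
    exact Int.dvd_self_sub_emod
  · intro k hk
    refine ⟨lt_of_le_of_ne (Int.floor_le _) fun h => hθB ?_, Int.lt_floor_add_one _⟩
    rw [mem_image]
    refine ⟨k, mem_range.2 (by omega), ?_⟩
    have h3 : -t k = θ - ((n k : ℤ) : ℝ) := by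
      have : ((n k : ℤ) : ℝ) = t k + θ := h
      rw [this]
      ring
    rw [h3, Int.fract_sub_intCast, Int.fract_eq_self.2 ⟨hθ.1, hθ.2⟩]

end Pool.Agent.Y175.KL
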