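import Mathlib
import Pool.Agent.Y175.KL.Weights
import Pool.Agent.Results.MP_05361d_gt.FiniteCovers

set_option autoImplicit false
open Set Topology

universe u v

namespace Pool.Agent.Y175.KL

open Pool.Agent.Results.MP_05361d_gt.FiniteCovers

/-- every continuous map to the circle is null-homotopic -/
def CircleAcyclic (Y : Type v) [TopologicalSpace Y] : Prop :=
  ∀ h : C(Y, Circle), h.Nullhomotopic

theorem circleAcyclic_of_contractible (Y : Type v) [TopologicalSpace Y] [ContractibleSpace Y] :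
    CircleAcyclic Y := by
  intro h
  have := (id_nullhomotopic Y).comp_right h
  simpa using this

theorem circle_lift {Y : Type v} [TopologicalSpace Y] (hY : CircleAcyclic Y) (A B : Y → ℝ)
    (hA : Continuous A) (hB : Continuous B) (hAB : ∀ y, A y ≠ 0 ∨ B y ≠ 0) :
    ∃ l : Y → ℝ, Continuous l ∧ ∀ y, ∃ R > 0, A y = R * Real.cos (l y) ∧
      B y = R * Real.sin (l y) := by
  have hz : Continuous fun y => (⟨A y, B y⟩ : ℂ) := by
    have : (fun y => (⟨A y, B y⟩ : ℂ)) = fun y => (A y : ℂ) + (B y : ℂ) * Complex.I := by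
      funext y
      exact Complex.mk_eq_add_mul_I _ _
    rw [this]
    exact (Complex.continuous_ofReal.comp hA).add
      ((Complex.continuous_ofReal.comp hB).mul continuous_const)
  have hz0 : ∀ y, (⟨A y, B y⟩ : ℂ) ≠ 0 := by
    intro y h
    rcases hAB y with h1 | h1
    · exact h1 (congrArg Complex.re h)
    · exact h1 (congrArg Complex.im h)
  have hn0 : ∀ y, ‖(⟨A y, B y⟩ : ℂ)‖ ≠ 0 := fun y => norm_ne_zero_iff.2 (hz0 y)
  let h : C(Y, Circle) := ⟨fun y => ⟨(⟨A y, B y⟩ : ℂ) / ‖(⟨A y, B y⟩ : ℂ)‖, by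
    have h9 : ‖(⟨A y, B y⟩ : ℂ) / (‖(⟨A y, B y⟩ : ℂ)‖ : ℂ)‖ = 1 := by
      rw [norm_div, Complex.norm_real, norm_norm, div_self (hn0 y)]
    exact mem_sphere_zero_iff_norm.2 h9⟩, by
    refine Continuous.subtype_mk ?_ _
    refine hz.div (Complex.continuous_ofReal.comp hz.norm) fun y => ?_
    exact_mod_cast hn0 y⟩
  obtain ⟨w, ⟨H⟩⟩ := hY h
  let H' := H.symm
  obtain ⟨a, ha⟩ : ∃ a : ℝ, Circle.exp a = w := ⟨Complex.arg w, Circle.exp_arg w⟩
  have cov := Circle.isCoveringMap_exp
  have h0 : ∀ y : Y, H'.toContinuousMap (0, y) = Circle.exp ((ContinuousMap.const Y a) y) := by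
    intro y
    show H' (0, y) = Circle.exp a
    rw [H'.apply_zero, ha]
    rfl
  let L := cov.liftHomotopy H'.toContinuousMap (ContinuousMap.const Y a) h0
  have hL := cov.liftHomotopy_lifts H'.toContinuousMap (ContinuousMap.const Y a) h0
  refine ⟨fun y => L (1, y), L.continuous.comp (by fun_prop), ?_⟩
  intro y
  have h1 : Circle.exp (L (1, y)) = H' (1, y) := congrFun hL (1, y)
  have h2 : ((Circle.exp (L (1, y)) : Circle) : ℂ) =
      (⟨A y, B y⟩ : ℂ) / ‖(⟨A y, B y⟩ : ℂ)‖ := by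
    rw [h1, H'.apply_one]
    rfl
  have hpos : 0 < ‖(⟨A y, B y⟩ : ℂ)‖ := norm_pos_iff.2 (hz0 y)
  refine ⟨‖(⟨A y, B y⟩ : ℂ)‖, hpos, ?_, ?_⟩
  · have h3 := congrArg Complex.re h2
    rw [Circle.coe_exp, Complex.exp_ofReal_mul_I_re, Complex.div_ofReal_re] at h3
    rw [h3]
    field_simp
  · have h3 := congrArg Complex.im h2
    rw [Circle.coe_exp, Complex.exp_ofReal_mul_I_im, Complex.div_ofReal_im] at h3
    rw [h3]
    field_simp

/-- a centre for a finite family of small diameter containing zero -/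
theorem exists_centre {ι : Type*} (I : Finset ι) (φ : ι → ℝ) (d : ℝ) (h0 : ∀ i ∈ I, |φ i| ≤ d)
    (hd : 0 ≤ d) (h1 : ∀ i ∈ I, ∀ i' ∈ I, |φ i - φ i'| ≤ d) :
    ∃ a : ℝ, |a| ≤ d / 2 ∧ ∀ i ∈ I, |φ i - a| ≤ d / 2 := by
  classical
  set S : Finset ℝ := insert 0 (I.image φ) with hS
  have hSn : S.Nonempty := ⟨0, Finset.mem_insert_self _ _⟩
  have hd2 : ∀ x ∈ S, ∀ y ∈ S, |x - y| ≤ d := by
    intro x hx y hy
    rcases Finset.mem_insert.1 hx with rfl | hx
    · rcases Finset.mem_insert.1 hy with rfl | hy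
      · simpa using hd
      · obtain ⟨i, hi, rfl⟩ := Finset.mem_image.1 hy
        rw [zero_sub, abs_neg]
        exact h0 i hi
    · obtain ⟨i, hi, rfl⟩ := Finset.mem_image.1 hx
      rcases Finset.mem_insert.1 hy with rfl | hy
      · rw [sub_zero]
        exact h0 i hi
      · obtain ⟨i', hi', rfl⟩ := Finset.mem_image.1 hy
        exact h1 i hi i' hi'
  have h3 := hd2 _ (S.max'_mem hSn) _ (S.min'_mem hSn)
  have key : ∀ x ∈ S, |x - (S.max' hSn + S.min' hSn) / 2| ≤ d / 2 := by
    intro x hx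
    have h4 := S.le_max' x hx
    have h5 := S.min'_le x hx
    have h6 := abs_le.1 h3
    rw [abs_le]
    constructor <;> linarith
  refine ⟨(S.max' hSn + S.min' hSn) / 2, ?_, fun i hi => ?_⟩
  · have := key 0 (Finset.mem_insert_self _ _)
    rwa [zero_sub, abs_neg] at this
  · exact key _ (Finset.mem_insert_of_mem (Finset.mem_image_of_mem _ hi))

/-- a continuous function on a connected space whose cosine never is `-1` -/
theorem diff_lt {X : Type u} [TopologicalSpace X] [PreconnectedSpace X] (D : X → ℝ)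
    (hD : Continuous D) (hc : ∀ x, ∃ a : ℝ, |a| < Real.pi / 2 ∧ 0 < Real.cos (D x - a)) (x y : X) :
    |D x - D y| < 2 * Real.pi := by
  have h0 : ∀ x, Real.cos (D x / 2) ≠ 0 := by
    intro x hx
    obtain ⟨a, ha, hpos⟩ := hc x
    have h1 : Real.cos (D x) = -1 := by
      have := Real.cos_two_mul (D x / 2)
      rw [hx] at this
      rw [show D x = 2 * (D x / 2) by ring, this]
      norm_num
    have h2 : Real.sin (D x) = 0 := by
      have := Real.sin_two_mul (D x / 2)
      rw [hx] at this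
      rw [show D x = 2 * (D x / 2) by ring, this]
      ring
    rw [Real.cos_sub, h1, h2] at hpos
    have h3 : 0 < Real.cos a := Real.cos_pos_of_mem_Ioo ⟨by linarith [(abs_lt.1 ha).1],
      (abs_lt.1 ha).2⟩
    linarith
  have hcont : Continuous fun x => Real.cos (D x / 2) := Real.continuous_cos.comp (hD.div_const _)
  have hsign : (∀ x, 0 < Real.cos (D x / 2)) ∨ ∀ x, Real.cos (D x / 2) < 0 := by
    by_contra hcon
    push Not at hcon
    obtain ⟨⟨x1, hx1⟩, x2, hx2⟩ := hcon
    obtain ⟨w, hw⟩ := mem_range_of_exists_le_of_exists_ge hcont ⟨x1, hx1⟩ ⟨x2, hx2⟩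
    exact h0 w hw
  rcases hsign with h | h
  · have h1 := cos_pos_close (fun x => D x / 2) (hD.div_const _) h x y
    have h2 : D x / 2 - D y / 2 = (D x - D y) / 2 := by ring
    rw [h2, abs_div, abs_of_pos (by norm_num : (0 : ℝ) < 2)] at h1
    linarith
  · have h1 := cos_pos_close (fun x => D x / 2 + Real.pi)
      ((hD.div_const _).add continuous_const) (fun x => by
        rw [Real.cos_add_pi]
        linarith [h x]) x y
    have h2 : (D x / 2 + Real.pi) - (D y / 2 + Real.pi) = (D x - D y) / 2 := by ring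
    rw [h2, abs_div, abs_of_pos (by norm_num : (0 : ℝ) < 2)] at h1
    linarith

end Pool.Agent.Y175.KL
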