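import Mathlib
import Pool.Agent.Y175.KL.Weights
import Pool.Agent.Y175.KL.Lift
import Pool.Agent.Results.MP_05361d_gt.FiniteCovers

set_option autoImplicit false
open Set Topology

universe u v

namespace Pool.Agent.Y175.KL

open Pool.Agent.Results.MP_05361d_gt.FiniteCovers

/-- the angles of the colours -/
noncomputable def ang (m j : ℕ) (i : ℕ) : ℝ := 2 * Real.pi * (2 ^ j * (i : ℝ) / (2 ^ (m + 1) - 1))

theorem core {m : ℕ} {𝒦 : (Y : Type v) → TopologicalSpace Y → Prop}
    (h𝒦 : ∀ (Y : Type v) (t : TopologicalSpace Y), 𝒦 Y t → @IsContinuum Y t ∧ @CircleAcyclic Y t)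
    {X : Type u} [TopologicalSpace X] (hX : IsContinuum X) (𝒰 : Set (Set X))
    (g : X → Fin m → ℝ) (hg : Continuous g) (δ : ℝ) (hδ : 0 < δ)
    (hgU : ∀ x, ∃ U ∈ 𝒰, ∀ y, dist (g y) (g x) < δ → y ∈ U)
    (hn : NLike (2 ^ (m + 1) - 1) 𝒦 X) :
    ∃ (Y : Type v) (_ : TopologicalSpace Y), 𝒦 Y ‹_› ∧
      ∃ f : X → Y, Function.Surjective f ∧ IsUMap 𝒰 f := by
  classical
  obtain ⟨hXc, hXk, hX2⟩ := hX
  -- the coordinates
  let z : ℕ → X → ℝ := fun j x => if h : j < m then 2 * g x ⟨j, h⟩ / δ else 0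
  have hzc : ∀ j, Continuous (z j) := by
    intro j
    simp only [z]
    by_cases h : j < m
    · simp only [h, dif_pos]
      exact (continuous_const.mul ((continuous_apply _).comp hg)).div_const _
    · simp only [h, dif_neg, not_false_eq_true]
      exact continuous_const
  let s : X → ℕ → ℝ := fun x j => if j ≤ m then ∑ i ∈ Finset.range j, z i x else 0
  have hs0 : ∀ x, s x 0 = 0 := fun x => by simp [s]
  have hsm : ∀ x, s x (m + 1) = 0 := fun x => by simp [s]
  have hsz : ∀ x, ∀ j < m, s x (j + 1) - s x j = z j x := by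
    intro x j hj
    simp only [s]
    rw [if_pos (by omega), if_pos (by omega), Finset.sum_range_succ]
    ring
  have hsc : ∀ j, Continuous fun x => s x j := by
    intro j
    simp only [s]
    by_cases h : j ≤ m
    · simp only [h, if_pos]
      exact continuous_finsetSum _ fun i _ => hzc i
    · simp only [h, if_neg, not_false_eq_true]
      exact continuous_const
  let t : X → ℕ → ℝ := fun x k => 2 * s x k - s x (k + 1)
  have htc : ∀ k, Continuous fun x => t x k := fun k =>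
    (continuous_const.mul (hsc k)).sub (hsc (k + 1))
  let O : Fin (2 ^ (m + 1) - 1) → Set X := fun i => {x | ∃ (θ : ℝ) (n : ℕ → ℤ), Wit m (t x) (i : ℕ) θ n}
  have hO : ∀ a, IsOpen (O a) := by
    intro a
    rw [isOpen_iff_forall_mem_open]
    rintro x ⟨θ, n, h1, h2, h3, h4⟩
    refine ⟨⋂ k ∈ Finset.range (m + 1), {y | (n k : ℝ) < t y k + θ ∧ t y k + θ < n k + 1}, ?_, ?_, ?_⟩
    · intro y hy
      refine ⟨θ, n, h1, h2, h3, fun k hk => ?_⟩
      exact mem_iInter₂.1 hy k (Finset.mem_range.2 (by omega))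
    · refine isOpen_biInter_finset fun k _ => ?_
      exact (isOpen_lt continuous_const ((htc k).add continuous_const)).inter
        (isOpen_lt ((htc k).add continuous_const) continuous_const)
    · exact mem_iInter₂.2 fun k hk => h4 k (by have := Finset.mem_range.1 hk; omega)
  have hOc : (⋃ a, O a) = univ := by
    rw [eq_univ_iff_forall]
    intro x
    obtain ⟨i, θ, n, h⟩ := exists_wit m (t x)
    exact mem_iUnion.2 ⟨i, θ, n, h⟩
  have hcard : (range O).encard ≤ ((2 ^ (m + 1) - 1 : ℕ) : ℕ∞) := by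
    rw [← image_univ]
    refine (encard_image_le _ _).trans ?_
    rw [encard_univ, ENat.card_eq_coe_fintype_card]
    simp
  obtain ⟨Y, tY, hY, f, hfs, hfc, 𝒱, h𝒱, href⟩ := hn (range O)
    ⟨by rintro _ ⟨a, rfl⟩; exact hO a, by rw [sUnion_range]; exact hOc⟩ hcard
  refine ⟨Y, tY, hY, f, hfs, hfc, ?_⟩
  obtain ⟨⟨hYc, hYk, hY2⟩, hYacyc⟩ := h𝒦 Y tY hY
  let Q : Fin (2 ^ (m + 1) - 1) → Set Y := fun a => ⋃₀ {V | V ∈ 𝒱 ∧ f ⁻¹' V ⊆ O a}
  have hQo : ∀ a, IsOpen (Q a) := fun a => isOpen_sUnion fun V hV => h𝒱.1 V hV.1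
  have hQc : (⋃ a, Q a) = univ := by
    rw [eq_univ_iff_forall]
    intro y
    have : y ∈ ⋃₀ 𝒱 := by rw [h𝒱.2]; exact mem_univ _
    obtain ⟨V, hV, hy⟩ := this
    obtain ⟨_, ⟨a, rfl⟩, ha⟩ := href _ (mem_image_of_mem _ hV)
    rw [mem_iUnion]
    exact ⟨a, V, ⟨hV, ha⟩, hy⟩
  have hQO : ∀ a x, f x ∈ Q a → x ∈ O a := by
    rintro a x ⟨V, ⟨_, hV⟩, hx⟩
    exact hV hx
  obtain ⟨ψ, hψ⟩ := PartitionOfUnity.exists_isSubordinate (isClosed_univ (X := Y)) Q hQo
    (by rw [hQc])
  have hψs : ∀ a y, ψ a y ≠ 0 → y ∈ Q a := fun a y hy => hψ a (subset_tsupport _ hy)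
  have hψsum : ∀ y, ∑ a, ψ a y = 1 := by
    intro y
    rw [← finsum_eq_sum_of_fintype]
    exact ψ.sum_eq_one (mem_univ y)
  let A : ℕ → Y → ℝ := fun j y => ∑ a : Fin (2 ^ (m + 1) - 1), ψ a y * Real.cos (ang m j a)
  let B : ℕ → Y → ℝ := fun j y => ∑ a : Fin (2 ^ (m + 1) - 1), ψ a y * Real.sin (ang m j a)
  have hA : ∀ j, Continuous (A j) := fun j =>
    continuous_finsetSum _ fun a _ => (ψ a).continuous.mul continuous_const
  have hB : ∀ j, Continuous (B j) := fun j =>
    continuous_finsetSum _ fun a _ => (ψ a).continuous.mul continuous_const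
  have hN8 : (1 : ℝ) ≤ 2 ^ m := one_le_pow₀ (by norm_num)
  have hN9 : (2 : ℝ) ^ (m + 1) = 2 * 2 ^ m := by ring
  have hN : (0 : ℝ) < 2 ^ (m + 1) - 1 := by rw [hN9]; linarith
  have hAB : ∀ j < m, ∀ x, ∃ b : ℝ, |b| < Real.pi / 2 ∧
      0 < A j (f x) * Real.cos (2 * Real.pi * z j x + b) +
        B j (f x) * Real.sin (2 * Real.pi * z j x + b) := by
    intro j hj x
    let I : Finset (Fin (2 ^ (m + 1) - 1)) := Finset.univ.filter fun a => ψ a (f x) ≠ 0
    have hI : ∀ a ∈ I, ∃ (θ : ℝ) (n : ℕ → ℤ), Wit m (t x) (a : ℕ) θ n := fun a ha =>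
      hQO a x (hψs a _ (Finset.mem_filter.1 ha).2)
    choose! θ n hw using hI
    let φ : Fin (2 ^ (m + 1) - 1) → ℝ := fun a => -(dev m j (t x) (θ a) (n a) / (2 ^ (m + 1) - 1))
    have hd : ∀ r : ℝ, |r| ≤ 2 ^ m - 1 → |r / (2 ^ (m + 1) - 1)| ≤
        (2 ^ m - 1) / (2 ^ (m + 1) - 1) := by
      intro r hr
      rw [abs_div, abs_of_pos hN]
      gcongr
    obtain ⟨e, he1, he2⟩ := exists_centre I φ ((2 ^ m - 1) / (2 ^ (m + 1) - 1))
      (fun a ha => by
        simp only [φ]
        rw [abs_neg]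
        exact hd _ (abs_dev_le hj.le (hw a ha)))
      (div_nonneg (by linarith) hN.le)
      (fun a ha a' ha' => by
        simp only [φ]
        have h1 : -(dev m j (t x) (θ a) (n a) / (2 ^ (m + 1) - 1)) -
            -(dev m j (t x) (θ a') (n a') / (2 ^ (m + 1) - 1)) =
            -((dev m j (t x) (θ a) (n a) - dev m j (t x) (θ a') (n a')) / (2 ^ (m + 1) - 1)) := by
          ring
        rw [h1, abs_neg]
        exact hd _ (abs_dev_sub_le hj.le (hw a ha) (hw a' ha')))
    have hhalf : ((2 : ℝ) ^ m - 1) / (2 ^ (m + 1) - 1) / 2 < 1 / 4 := by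
      rw [div_div, div_lt_div_iff₀ (by linarith) (by norm_num), hN9]
      linarith
    have hpi := Real.pi_pos
    refine ⟨2 * Real.pi * e, ?_, ?_⟩
    · rw [abs_mul, abs_of_pos (by positivity : 0 < 2 * Real.pi)]
      have : |e| < 1 / 4 := he1.trans_lt hhalf
      nlinarith
    · have h1 : A j (f x) * Real.cos (2 * Real.pi * z j x + 2 * Real.pi * e) +
          B j (f x) * Real.sin (2 * Real.pi * z j x + 2 * Real.pi * e) =
          ∑ a : Fin (2 ^ (m + 1) - 1), ψ a (f x) *
            Real.cos (ang m j a - (2 * Real.pi * z j x + 2 * Real.pi * e)) := by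
        simp only [A, B]
        rw [Finset.sum_mul, Finset.sum_mul, ← Finset.sum_add_distrib]
        refine Finset.sum_congr rfl fun a _ => ?_
        rw [Real.cos_sub]
        ring
      rw [h1]
      have hpos : ∀ a ∈ I, 0 < Real.cos (ang m j a - (2 * Real.pi * z j x + 2 * Real.pi * e)) := by
        intro a ha
        obtain ⟨q, hq⟩ := position hj.le (hs0 x) (hsm x) (hw a ha)
        rw [hsz x j hj] at hq
        have h2 : ang m j a - (2 * Real.pi * z j x + 2 * Real.pi * e) =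
            2 * Real.pi * (φ a - e) + q * (2 * Real.pi) := by
          unfold ang
          have h3 : (2 : ℝ) ^ j * (((a : ℕ) : ℤ) : ℝ) / (2 ^ (m + 1) - 1) =
              2 ^ j * ((a : ℕ) : ℝ) / (2 ^ (m + 1) - 1) := by push_cast; rfl
          rw [h3] at hq
          rw [hq]
          simp only [φ, t]
          ring
        rw [h2, Real.cos_add_int_mul_two_pi]
        have h3 : |φ a - e| < 1 / 4 := (he2 a ha).trans_lt hhalf
        obtain ⟨h4, h5⟩ := abs_lt.1 h3
        exact Real.cos_pos_of_mem_Ioo ⟨by nlinarith, by nlinarith⟩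
      have h2 : ∃ a, ψ a (f x) ≠ 0 := by
        by_contra hcon
        push Not at hcon
        have := hψsum (f x)
        rw [Finset.sum_eq_zero (fun a _ => hcon a)] at this
        exact zero_ne_one this
      obtain ⟨a, ha⟩ := h2
      refine Finset.sum_pos' ?_ ⟨a, Finset.mem_univ _, ?_⟩
      · intro b _
        by_cases hb : ψ b (f x) = 0
        · rw [hb, zero_mul]
        · exact mul_nonneg (ψ.nonneg b _)
            (hpos b (Finset.mem_filter.2 ⟨Finset.mem_univ _, hb⟩)).le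
      · exact mul_pos (lt_of_le_of_ne (ψ.nonneg a _) (Ne.symm ha))
          (hpos a (Finset.mem_filter.2 ⟨Finset.mem_univ _, ha⟩))
  have hlift : ∀ j : Fin m, ∃ l : Y → ℝ, Continuous l ∧ ∀ y, ∃ R > 0,
      A j y = R * Real.cos (l y) ∧ B j y = R * Real.sin (l y) := by
    intro j
    refine circle_lift hYacyc (A j) (B j) (hA j) (hB j) ?_
    intro y
    by_contra hcon
    push Not at hcon
    obtain ⟨x, rfl⟩ := hfs y
    obtain ⟨b, _, h1⟩ := hAB j j.2 x
    rw [hcon.1, hcon.2] at h1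
    simp at h1
  choose θ hθ hθR using hlift
  have : PreconnectedSpace X := hXc.toPreconnectedSpace
  have hclose : ∀ (j : Fin m) (x y : X),
      |(θ j (f x) - 2 * Real.pi * z j x) - (θ j (f y) - 2 * Real.pi * z j y)| < 2 * Real.pi := by
    intro j x y
    refine diff_lt (fun x => θ j (f x) - 2 * Real.pi * z j x)
      (((hθ j).comp hfc).sub (continuous_const.mul (hzc j))) ?_ x y
    intro x
    obtain ⟨b, hb, h1⟩ := hAB j j.2 x
    obtain ⟨R, hR, h2, h3⟩ := hθR j (f x)
    refine ⟨b, hb, ?_⟩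
    rw [h2, h3] at h1
    have h4 : R * Real.cos (θ j (f x)) * Real.cos (2 * Real.pi * z j x + b) +
        R * Real.sin (θ j (f x)) * Real.sin (2 * Real.pi * z j x + b) =
        R * Real.cos (θ j (f x) - 2 * Real.pi * z j x - b) := by
      rw [show θ j (f x) - 2 * Real.pi * z j x - b = θ j (f x) - (2 * Real.pi * z j x + b) by ring,
        Real.cos_sub]
      ring
    rw [h4] at h1
    exact (mul_pos_iff_of_pos_left hR).1 h1
  refine ⟨range fun y0 : Y => {y : Y | ∀ j, |θ j y - θ j y0| < 2 * Real.pi}, ⟨?_, ?_⟩, ?_⟩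
  · rintro _ ⟨y0, rfl⟩
    have : {y : Y | ∀ j, |θ j y - θ j y0| < 2 * Real.pi} =
        ⋂ j, {y | |θ j y - θ j y0| < 2 * Real.pi} := by
      ext y; simp
    show IsOpen {y : Y | ∀ j, |θ j y - θ j y0| < 2 * Real.pi}
    rw [this]
    exact isOpen_iInter_of_finite fun j =>
      isOpen_lt ((hθ j).sub continuous_const).abs continuous_const
  · rw [eq_univ_iff_forall]
    intro y
    refine ⟨_, mem_range_self y, ?_⟩
    intro j
    rw [sub_self, abs_zero]
    exact Real.two_pi_pos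
  · rintro _ ⟨_, ⟨y0, rfl⟩, rfl⟩
    obtain ⟨x0, rfl⟩ := hfs y0
    obtain ⟨U, hU, hi⟩ := hgU x0
    refine ⟨U, hU, ?_⟩
    intro x hx
    apply hi
    rw [dist_pi_lt_iff hδ]
    intro j
    have h1 := hclose j x x0
    have h2 : |θ j (f x) - θ j (f x0)| < 2 * Real.pi := hx j
    have h3 : |2 * Real.pi * (z j x - z j x0)| < 4 * Real.pi := by
      have h4 : 2 * Real.pi * (z j x - z j x0) = (θ j (f x) - θ j (f x0)) -
          ((θ j (f x) - 2 * Real.pi * z j x) - (θ j (f x0) - 2 * Real.pi * z j x0)) := by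
        ring
      rw [h4]
      refine (abs_sub _ _).trans_lt ?_
      linarith
    have hpi := Real.pi_pos
    rw [abs_mul, abs_of_pos (by positivity : 0 < 2 * Real.pi)] at h3
    have h5 : z j x - z j x0 = 2 * ((g x j - g x0 j) / δ) := by
      simp only [z, j.2, dif_pos]
      ring
    have h6 : |z j x - z j x0| < 2 := by nlinarith
    rw [h5, abs_mul, abs_of_pos (by norm_num : (0 : ℝ) < 2), abs_div, abs_of_pos hδ] at h6
    have h7 : |g x j - g x0 j| / δ < 1 := by linarith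
    rw [div_lt_one hδ] at h7
    rw [Real.dist_eq]
    exact h7

end Pool.Agent.Y175.KL
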