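import Mathlib
import Pool.Agent.Y175.KL.Core

set_option autoImplicit false
open Set Topology

universe u v

namespace Pool.Agent.Y175.KL

open Pool.Agent.Results.MP_05361d_gt.FiniteCovers

/-- `p` is a sheet of an abelian covering: it is continuous and onto, there are finitely many
real functions `θ j` on `Z` such that `exp (i θ j)` is induced by a map `u j` of `Y` to the circle,
and `p` together with the `θ j` is injective. -/
def Sheet {Z Y : Type v} [TopologicalSpace Z] [TopologicalSpace Y] (p : Z → Y) : Prop :=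
  Continuous p ∧ Function.Surjective p ∧
    ∃ (m : ℕ) (u : Fin m → C(Y, Circle)) (θ : Fin m → C(Z, ℝ)),
      (∀ j z, Circle.exp (θ j z) = u j (p z)) ∧
        ∀ z w, p z = p w → (∀ j, θ j z = θ j w) → z = w

/-- the class of the continua with a sheet map onto a member of `𝒦` -/
def Hat (𝒦 : (Y : Type v) → TopologicalSpace Y → Prop) (Z : Type v) (tZ : TopologicalSpace Z) :
    Prop :=
  IsContinuum Z ∧ ∃ (Y : Type v) (tY : TopologicalSpace Y), 𝒦 Y tY ∧ ∃ p : Z → Y, Sheet p

theorem sheet_core {m : ℕ} {𝒦 : (Y : Type v) → TopologicalSpace Y → Prop}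
    (h𝒦 : ∀ (Y : Type v) (t : TopologicalSpace Y), 𝒦 Y t → @IsContinuum Y t)
    {X : Type u} [TopologicalSpace X] (hX : IsContinuum X) (𝒰 : Set (Set X))
    (g : X → Fin m → ℝ) (hg : Continuous g) (δ : ℝ) (hδ : 0 < δ)
    (hgU : ∀ x, ∃ U ∈ 𝒰, ∀ y, dist (g y) (g x) < δ → y ∈ U)
    (hn : NLike (2 ^ (m + 1) - 1) 𝒦 X) :
    ∃ (Z : Type v) (_ : TopologicalSpace Z), Hat 𝒦 Z ‹_› ∧
      ∃ f : X → Z, Function.Surjective f ∧ IsUMap 𝒰 f := by
  classical
  obtain ⟨hXc, hXk, hX2⟩ := hX
  -- the coordinates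
  let z : ℕ → X → ℝ := fun j x => if h : j < m then 2 * g x ⟨j, h⟩ / δ else 0
  have hzc : ∀ j, Continuous (z j) := by
    intro j
    simp only [z]
    by_cases h : j < m
    · simp only [h, dif_pos]
      exact (continuous_const.mul ((continuous_apply _).comp hg)).div_const _
    · simp only [h, dif_neg, not_false_eq_true]
      exact continuous_const
  let s : X → ℕ → ℝ := fun x j => if j ≤ m then ∑ i ∈ Finset.range j, z i x else 0
  have hs0 : ∀ x, s x 0 = 0 := fun x => by simp [s]
  have hsm : ∀ x, s x (m + 1) = 0 := fun x => by simp [s]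
  have hsz : ∀ x, ∀ j < m, s x (j + 1) - s x j = z j x := by
    intro x j hj
    simp only [s]
    rw [if_pos (by omega), if_pos (by omega), Finset.sum_range_succ]
    ring
  have hsc : ∀ j, Continuous fun x => s x j := by
    intro j
    simp only [s]
    by_cases h : j ≤ m
    · simp only [h, if_pos]
      exact continuous_finsetSum _ fun i _ => hzc i
    · simp only [h, if_neg, not_false_eq_true]
      exact continuous_const
  let t : X → ℕ → ℝ := fun x k => 2 * s x k - s x (k + 1)
  have htc : ∀ k, Continuous fun x => t x k := fun k =>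
    (continuous_const.mul (hsc k)).sub (hsc (k + 1))
  let O : Fin (2 ^ (m + 1) - 1) → Set X := fun i => {x | ∃ (θ : ℝ) (n : ℕ → ℤ), Wit m (t x) (i : ℕ) θ n}
  have hO : ∀ a, IsOpen (O a) := by
    intro a
    rw [isOpen_iff_forall_mem_open]
    rintro x ⟨θ, n, h1, h2, h3, h4⟩
    refine ⟨⋂ k ∈ Finset.range (m + 1), {y | (n k : ℝ) < t y k + θ ∧ t y k + θ < n k + 1}, ?_, ?_, ?_⟩
    · intro y hy
      refine ⟨θ, n, h1, h2, h3, fun k hk => ?_⟩
      exact mem_iInter₂.1 hy k (Finset.mem_range.2 (by omega))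
    · refine isOpen_biInter_finset fun k _ => ?_
      exact (isOpen_lt continuous_const ((htc k).add continuous_const)).inter
        (isOpen_lt ((htc k).add continuous_const) continuous_const)
    · exact mem_iInter₂.2 fun k hk => h4 k (by have := Finset.mem_range.1 hk; omega)
  have hOc : (⋃ a, O a) = univ := by
    rw [eq_univ_iff_forall]
    intro x
    obtain ⟨i, θ, n, h⟩ := exists_wit m (t x)
    exact mem_iUnion.2 ⟨i, θ, n, h⟩
  have hcard : (range O).encard ≤ ((2 ^ (m + 1) - 1 : ℕ) : ℕ∞) := by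
    rw [← image_univ]
    refine (encard_image_le _ _).trans ?_
    rw [encard_univ, ENat.card_eq_coe_fintype_card]
    simp
  obtain ⟨Y, tY, hY, f, hfs, hfc, 𝒱, h𝒱, href⟩ := hn (range O)
    ⟨by rintro _ ⟨a, rfl⟩; exact hO a, by rw [sUnion_range]; exact hOc⟩ hcard
  obtain ⟨hYc, hYk, hY2⟩ := h𝒦 Y tY hY
  let Q : Fin (2 ^ (m + 1) - 1) → Set Y := fun a => ⋃₀ {V | V ∈ 𝒱 ∧ f ⁻¹' V ⊆ O a}
  have hQo : ∀ a, IsOpen (Q a) := fun a => isOpen_sUnion fun V hV => h𝒱.1 V hV.1
  have hQc : (⋃ a, Q a) = univ := by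
    rw [eq_univ_iff_forall]
    intro y
    have : y ∈ ⋃₀ 𝒱 := by rw [h𝒱.2]; exact mem_univ _
    obtain ⟨V, hV, hy⟩ := this
    obtain ⟨_, ⟨a, rfl⟩, ha⟩ := href _ (mem_image_of_mem _ hV)
    rw [mem_iUnion]
    exact ⟨a, V, ⟨hV, ha⟩, hy⟩
  have hQO : ∀ a x, f x ∈ Q a → x ∈ O a := by
    rintro a x ⟨V, ⟨_, hV⟩, hx⟩
    exact hV hx
  obtain ⟨ψ, hψ⟩ := PartitionOfUnity.exists_isSubordinate (isClosed_univ (X := Y)) Q hQo
    (by rw [hQc])
  have hψs : ∀ a y, ψ a y ≠ 0 → y ∈ Q a := fun a y hy => hψ a (subset_tsupport _ hy)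
  have hψsum : ∀ y, ∑ a, ψ a y = 1 := by
    intro y
    rw [← finsum_eq_sum_of_fintype]
    exact ψ.sum_eq_one (mem_univ y)
  let A : ℕ → Y → ℝ := fun j y => ∑ a : Fin (2 ^ (m + 1) - 1), ψ a y * Real.cos (ang m j a)
  let B : ℕ → Y → ℝ := fun j y => ∑ a : Fin (2 ^ (m + 1) - 1), ψ a y * Real.sin (ang m j a)
  have hA : ∀ j, Continuous (A j) := fun j =>
    continuous_finsetSum _ fun a _ => (ψ a).continuous.mul continuous_const
  have hB : ∀ j, Continuous (B j) := fun j =>
    continuous_finsetSum _ fun a _ => (ψ a).continuous.mul continuous_const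
  have hN8 : (1 : ℝ) ≤ 2 ^ m := one_le_pow₀ (by norm_num)
  have hN9 : (2 : ℝ) ^ (m + 1) = 2 * 2 ^ m := by ring
  have hN : (0 : ℝ) < 2 ^ (m + 1) - 1 := by rw [hN9]; linarith
  have hAB : ∀ j < m, ∀ x, ∃ b : ℝ, |b| < Real.pi / 2 ∧
      0 < A j (f x) * Real.cos (2 * Real.pi * z j x + b) +
        B j (f x) * Real.sin (2 * Real.pi * z j x + b) := by
    intro j hj x
    let I : Finset (Fin (2 ^ (m + 1) - 1)) := Finset.univ.filter fun a => ψ a (f x) ≠ 0
    have hI : ∀ a ∈ I, ∃ (θ : ℝ) (n : ℕ → ℤ), Wit m (t x) (a : ℕ) θ n := fun a ha =>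
      hQO a x (hψs a _ (Finset.mem_filter.1 ha).2)
    choose! θ n hw using hI
    let φ : Fin (2 ^ (m + 1) - 1) → ℝ := fun a => -(dev m j (t x) (θ a) (n a) / (2 ^ (m + 1) - 1))
    have hd : ∀ r : ℝ, |r| ≤ 2 ^ m - 1 → |r / (2 ^ (m + 1) - 1)| ≤
        (2 ^ m - 1) / (2 ^ (m + 1) - 1) := by
      intro r hr
      rw [abs_div, abs_of_pos hN]
      gcongr
    obtain ⟨e, he1, he2⟩ := exists_centre I φ ((2 ^ m - 1) / (2 ^ (m + 1) - 1))
      (fun a ha => by
        simp only [φ]
        rw [abs_neg]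
        exact hd _ (abs_dev_le hj.le (hw a ha)))
      (div_nonneg (by linarith) hN.le)
      (fun a ha a' ha' => by
        simp only [φ]
        have h1 : -(dev m j (t x) (θ a) (n a) / (2 ^ (m + 1) - 1)) -
            -(dev m j (t x) (θ a') (n a') / (2 ^ (m + 1) - 1)) =
            -((dev m j (t x) (θ a) (n a) - dev m j (t x) (θ a') (n a')) / (2 ^ (m + 1) - 1)) := by
          ring
        rw [h1, abs_neg]
        exact hd _ (abs_dev_sub_le hj.le (hw a ha) (hw a' ha')))
    have hhalf : ((2 : ℝ) ^ m - 1) / (2 ^ (m + 1) - 1) / 2 < 1 / 4 := by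
      rw [div_div, div_lt_div_iff₀ (by linarith) (by norm_num), hN9]
      linarith
    have hpi := Real.pi_pos
    refine ⟨2 * Real.pi * e, ?_, ?_⟩
    · rw [abs_mul, abs_of_pos (by positivity : 0 < 2 * Real.pi)]
      have : |e| < 1 / 4 := he1.trans_lt hhalf
      nlinarith
    · have h1 : A j (f x) * Real.cos (2 * Real.pi * z j x + 2 * Real.pi * e) +
          B j (f x) * Real.sin (2 * Real.pi * z j x + 2 * Real.pi * e) =
          ∑ a : Fin (2 ^ (m + 1) - 1), ψ a (f x) *
            Real.cos (ang m j a - (2 * Real.pi * z j x + 2 * Real.pi * e)) := by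
        simp only [A, B]
        rw [Finset.sum_mul, Finset.sum_mul, ← Finset.sum_add_distrib]
        refine Finset.sum_congr rfl fun a _ => ?_
        rw [Real.cos_sub]
        ring
      rw [h1]
      have hpos : ∀ a ∈ I, 0 < Real.cos (ang m j a - (2 * Real.pi * z j x + 2 * Real.pi * e)) := by
        intro a ha
        obtain ⟨q, hq⟩ := position hj.le (hs0 x) (hsm x) (hw a ha)
        rw [hsz x j hj] at hq
        have h2 : ang m j a - (2 * Real.pi * z j x + 2 * Real.pi * e) =
            2 * Real.pi * (φ a - e) + q * (2 * Real.pi) := by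
          unfold ang
          have h3 : (2 : ℝ) ^ j * (((a : ℕ) : ℤ) : ℝ) / (2 ^ (m + 1) - 1) =
              2 ^ j * ((a : ℕ) : ℝ) / (2 ^ (m + 1) - 1) := by push_cast; rfl
          rw [h3] at hq
          rw [hq]
          simp only [φ, t]
          ring
        rw [h2, Real.cos_add_int_mul_two_pi]
        have h3 : |φ a - e| < 1 / 4 := (he2 a ha).trans_lt hhalf
        obtain ⟨h4, h5⟩ := abs_lt.1 h3
        exact Real.cos_pos_of_mem_Ioo ⟨by nlinarith, by nlinarith⟩
      have h2 : ∃ a, ψ a (f x) ≠ 0 := by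
        by_contra hcon
        push Not at hcon
        have := hψsum (f x)
        rw [Finset.sum_eq_zero (fun a _ => hcon a)] at this
        exact zero_ne_one this
      obtain ⟨a, ha⟩ := h2
      refine Finset.sum_pos' ?_ ⟨a, Finset.mem_univ _, ?_⟩
      · intro b _
        by_cases hb : ψ b (f x) = 0
        · rw [hb, zero_mul]
        · exact mul_nonneg (ψ.nonneg b _)
            (hpos b (Finset.mem_filter.2 ⟨Finset.mem_univ _, hb⟩)).le
      · exact mul_pos (lt_of_le_of_ne (ψ.nonneg a _) (Ne.symm ha))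
          (hpos a (Finset.mem_filter.2 ⟨Finset.mem_univ _, ha⟩))
  -- the complex numbers
  let c : Fin m → Y → ℂ := fun j y => (A j y : ℂ) + (B j y : ℂ) * Complex.I
  have hcc : ∀ j, Continuous (c j) := fun j =>
    (Complex.continuous_ofReal.comp (hA j)).add
      ((Complex.continuous_ofReal.comp (hB j)).mul continuous_const)
  let w : Fin m → X → ℂ := fun j x =>
    c j (f x) * Complex.exp (-((2 * Real.pi * z j x : ℝ) : ℂ) * Complex.I)
  have hwc : ∀ j, Continuous (w j) := by
    intro j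
    refine ((hcc j).comp hfc).mul (Complex.continuous_exp.comp ?_)
    exact ((Complex.continuous_ofReal.comp (continuous_const.mul (hzc j))).neg).mul
      continuous_const
  have hwre : ∀ (j : Fin m) (x : X) (b : ℝ), (w j x * Complex.exp (-(b : ℂ) * Complex.I)).re =
      A j (f x) * Real.cos (2 * Real.pi * z j x + b) +
        B j (f x) * Real.sin (2 * Real.pi * z j x + b) := by
    intro j x b
    have h1 : w j x * Complex.exp (-(b : ℂ) * Complex.I) =
        c j (f x) * Complex.exp (((-(2 * Real.pi * z j x + b) : ℝ) : ℂ) * Complex.I) := by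
      simp only [w]
      rw [mul_assoc, ← Complex.exp_add]
      congr 2
      push_cast
      ring
    rw [h1, Complex.mul_re, Complex.exp_ofReal_mul_I_re, Complex.exp_ofReal_mul_I_im,
      Real.cos_neg, Real.sin_neg]
    simp only [c]
    simp
  have hslit : ∀ j x, w j x ∈ Complex.slitPlane := by
    intro j x
    obtain ⟨b, hb, hpos⟩ := hAB j j.2 x
    rw [← hwre j x b] at hpos
    rw [Complex.mem_slitPlane_iff]
    by_contra hcon
    push Not at hcon
    obtain ⟨h1, h2⟩ := hcon
    have h3 : w j x = ((w j x).re : ℂ) := by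
      apply Complex.ext
      · simp
      · simp [h2]
    have h5 : (((w j x).re : ℂ) * Complex.exp (-(b : ℂ) * Complex.I)).re =
        (w j x).re * Real.cos b := by
      have h6 : -(b : ℂ) * Complex.I = ((-b : ℝ) : ℂ) * Complex.I := by push_cast; ring
      rw [h6, Complex.re_ofReal_mul, Complex.exp_ofReal_mul_I_re, Real.cos_neg]
    rw [h3, h5] at hpos
    have h4 : 0 < Real.cos b := Real.cos_pos_of_mem_Ioo ⟨by linarith [(abs_lt.1 hb).1],
      (abs_lt.1 hb).2⟩
    nlinarith
  have hc0 : ∀ j y, c j y ≠ 0 := by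
    intro j y h
    obtain ⟨x, rfl⟩ := hfs y
    have := Complex.slitPlane_ne_zero (hslit j x)
    apply this
    simp only [w]
    rw [h, zero_mul]
  let uu : Fin m → C(Y, Circle) := fun j => ⟨fun y => ⟨c j y / ‖c j y‖, by
    have h9 : ‖c j y / (‖c j y‖ : ℂ)‖ = 1 := by
      rw [norm_div, Complex.norm_real, norm_norm, div_self (norm_ne_zero_iff.2 (hc0 j y))]
    exact mem_sphere_zero_iff_norm.2 h9⟩, by
    refine Continuous.subtype_mk ?_ _
    refine (hcc j).div (Complex.continuous_ofReal.comp (hcc j).norm) fun y => ?_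
    exact_mod_cast norm_ne_zero_iff.2 (hc0 j y)⟩
  let θ : Fin m → X → ℝ := fun j x => 2 * Real.pi * z j x + Complex.arg (w j x)
  have hθc : ∀ j, Continuous (θ j) := by
    intro j
    refine (continuous_const.mul (hzc j)).add ?_
    rw [continuous_iff_continuousAt]
    intro x
    exact (Complex.continuousAt_arg (hslit j x)).comp (hwc j).continuousAt
  have hθz : ∀ j x, |θ j x - 2 * Real.pi * z j x| < Real.pi := by
    intro j x
    simp only [θ, add_sub_cancel_left]
    have h1 := (Complex.mem_slitPlane_iff_arg.1 (hslit j x)).1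
    rw [abs_lt]
    exact ⟨Complex.neg_pi_lt_arg _, lt_of_le_of_ne (Complex.arg_le_pi _) h1⟩
  have hexp : ∀ j x, Circle.exp (θ j x) = uu j (f x) := by
    intro j x
    apply Subtype.ext
    show ((Circle.exp (θ j x) : Circle) : ℂ) = c j (f x) / ‖c j (f x)‖
    rw [Circle.coe_exp]
    have hnorm : ‖w j x‖ = ‖c j (f x)‖ := by
      simp only [w]
      have h6 : -((2 * Real.pi * z j x : ℝ) : ℂ) * Complex.I =
          ((-(2 * Real.pi * z j x) : ℝ) : ℂ) * Complex.I := by push_cast; ring
      rw [norm_mul, h6, Complex.norm_exp_ofReal_mul_I, mul_one]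
    have h1 := Complex.norm_mul_exp_arg_mul_I (w j x)
    have h2 : c j (f x) = w j x * Complex.exp (((2 * Real.pi * z j x : ℝ) : ℂ) * Complex.I) := by
      simp only [w]
      rw [mul_assoc, ← Complex.exp_add]
      have : -((2 * Real.pi * z j x : ℝ) : ℂ) * Complex.I +
          ((2 * Real.pi * z j x : ℝ) : ℂ) * Complex.I = 0 := by ring
      rw [this, Complex.exp_zero, mul_one]
    have h3 : ((‖c j (f x)‖ : ℝ) : ℂ) ≠ 0 := by
      exact_mod_cast norm_ne_zero_iff.2 (hc0 j (f x))
    rw [eq_div_iff h3]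
    have h4 : Complex.exp ((θ j x : ℂ) * Complex.I) =
        Complex.exp (((2 * Real.pi * z j x : ℝ) : ℂ) * Complex.I) *
          Complex.exp ((Complex.arg (w j x) : ℂ) * Complex.I) := by
      rw [← Complex.exp_add]
      congr 1
      simp only [θ]
      push_cast
      ring
    rw [h4, ← hnorm]
    conv_rhs => rw [h2, ← h1]
    ring
  -- the space
  let F : X → Y × (Fin m → ℝ) := fun x => (f x, fun j => θ j x)
  have hF : Continuous F := hfc.prodMk (continuous_pi hθc)
  have hcont : IsContinuum (range F) := by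
    refine ⟨?_, ?_, inferInstance⟩
    · exact isConnected_iff_connectedSpace.1 (isConnected_range hF)
    · exact isCompact_iff_compactSpace.1 (isCompact_range hF)
  refine ⟨range F, inferInstance, ⟨hcont, Y, tY, hY, fun q => q.1.1,
    continuous_fst.comp continuous_subtype_val, ?_, m, uu,
    fun j => ⟨fun q => q.1.2 j, (continuous_apply j).comp
      (continuous_snd.comp continuous_subtype_val)⟩, ?_, ?_⟩, fun x => ⟨F x, mem_range_self x⟩, ?_,
      hF.subtype_mk _, ?_⟩
  · intro y
    obtain ⟨x, rfl⟩ := hfs y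
    exact ⟨⟨F x, mem_range_self x⟩, rfl⟩
  · rintro j ⟨_, x, rfl⟩
    exact hexp j x
  · rintro ⟨q, hq⟩ ⟨q', hq'⟩ h1 h2
    exact Subtype.ext (Prod.ext h1 (funext h2))
  · rintro ⟨_, x, rfl⟩
    exact ⟨x, rfl⟩
  · refine ⟨range fun q0 : range F => {q : range F | ∀ j, |q.1.2 j - q0.1.2 j| < 2 * Real.pi},
      ⟨?_, ?_⟩, ?_⟩
    · rintro _ ⟨q0, rfl⟩
      have : {q : range F | ∀ j, |q.1.2 j - q0.1.2 j| < 2 * Real.pi} =
          ⋂ j, {q : range F | |q.1.2 j - q0.1.2 j| < 2 * Real.pi} := by
        ext y; simp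
      show IsOpen {q : range F | ∀ j, |q.1.2 j - q0.1.2 j| < 2 * Real.pi}
      rw [this]
      refine isOpen_iInter_of_finite fun j => isOpen_lt ?_ continuous_const
      exact (((continuous_apply j).comp
        (continuous_snd.comp continuous_subtype_val)).sub continuous_const).abs
    · rw [eq_univ_iff_forall]
      intro q
      refine ⟨_, mem_range_self q, ?_⟩
      intro j
      rw [sub_self, abs_zero]
      exact Real.two_pi_pos
    · rintro _ ⟨_, ⟨⟨_, x0, rfl⟩, rfl⟩, rfl⟩
      obtain ⟨U, hU, hi⟩ := hgU x0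
      refine ⟨U, hU, ?_⟩
      intro x hx
      apply hi
      rw [dist_pi_lt_iff hδ]
      intro j
      have h1 := hθz j x
      have h1' := hθz j x0
      have h2 : |θ j x - θ j x0| < 2 * Real.pi := hx j
      have h3 : |2 * Real.pi * (z j x - z j x0)| < 4 * Real.pi := by
        rw [abs_lt] at h1 h1' h2 ⊢
        constructor <;> nlinarith [Real.pi_pos]
      have hpi := Real.pi_pos
      rw [abs_mul, abs_of_pos (by positivity : 0 < 2 * Real.pi)] at h3
      have h5 : z j x - z j x0 = 2 * ((g x j - g x0 j) / δ) := by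
        simp only [z, j.2, dif_pos]
        ring
      have h6 : |z j x - z j x0| < 2 := by nlinarith
      rw [h5, abs_mul, abs_of_pos (by norm_num : (0 : ℝ) < 2), abs_div, abs_of_pos hδ] at h6
      have h7 : |g x j - g x0 j| / δ < 1 := by linarith
      rw [div_lt_one hδ] at h7
      rw [Real.dist_eq]
      exact h7

end Pool.Agent.Y175.KL
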